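import Mathlib
import Pool.Agent.HGQ.D5

/-!
# Random bipartite quadrangulations of high genus have logarithmic diameter

The definitions are in `Pool/Agent/HGQ/UDefs.lean` (number of cycles `nc`) and
`Pool/Agent/HGQ/QDefs.lean` (quadrangulations):

* `IsBQ w b`: two permutations `w, b` of a finite set `E` of edges encode a connected bipartite
  quadrangulation: white vertices = cycles of `w`, black vertices = cycles of `b` (rotation of the
  edges around the vertices), faces = cycles of `w ∘ b`, a cycle of length `k` being a face of degree
  `2k`; so all cycles of `w ∘ b` have length two, and `w, b` generate a transitive group.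
* `LQ n g`: those with `E = Fin (2n)`, so `2n` edges and `n` faces, and `n + 2 - 2g` vertices,
  that is, genus `g` by Euler's formula.
* `RQ n g`: classes of `LQ n g` under relabelling of the edges that fixes the root edge `0`:
  rooted bipartite quadrangulations of genus `g` with `n` faces.
* `RQ.diam`: largest graph distance between two vertices of the map (`SimpleGraph.diam` of the graph
  in which the two ends of every edge are adjacent).

Method: the Marcus-Schaeffer bijection for pointed bipartite quadrangulations of genus `g`; Chapuy's
trisection bijection carried out label by label, which gives an exact formula for labelled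
unicellular maps of genus `g` as weighted labelled plane trees; estimates for the weights of
labelled plane trees which exclude small bottlenecks; and a covering argument.
-/

set_option autoImplicit false

namespace Pool.Agent.Results.MP_a7ce40_pr.LogDiameter

open Filter Topology HGQ

/-- For every `θ` in `(0, 1/2)` there is `M` such that for every sequence `g` with `g n / n → θ`, the set
of rooted bipartite quadrangulations of genus `g n` with `n` faces is finite and nonempty for all
large `n`, and a uniform random element of it has diameter at most `M log n` with probability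
tending to one. -/
theorem result (θ : ℝ) (h0 : 0 < θ) (h1 : θ < 1 / 2) :
    ∃ M : ℝ, 0 < M ∧ ∀ g : ℕ → ℕ,
      Tendsto (fun n => (g n : ℝ) / (n : ℝ)) atTop (𝓝 θ) →
        (∀ᶠ n in atTop, 0 < Nat.card (RQ n (g n))) ∧
        Tendsto (fun n => (Nat.card {x : RQ n (g n) // (x.diam : ℝ) ≤ M * Real.log n} : ℝ)
          / (Nat.card (RQ n (g n)) : ℝ)) atTop (𝓝 1) := by
  obtain ⟨M, hM, h⟩ := log_diameter θ h0 h1
  refine ⟨M, hM, fun g hg => ?_⟩
  obtain ⟨hpos, hlim⟩ := h g hg
  refine ⟨hpos, ?_⟩
  have h2 : Tendsto (fun n => 1 - (Nat.card {x : RQ n (g n) // M * Real.log n < (x.diam : ℝ)} : ℝ)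
      / (Nat.card (RQ n (g n)) : ℝ)) atTop (𝓝 (1 - 0)) := tendsto_const_nhds.sub hlim
  rw [sub_zero] at h2
  refine h2.congr' ?_
  filter_upwards [hpos] with n hn
  haveI : Finite (RQ n (g n)) := Nat.finite_of_card_ne_zero hn.ne'
  classical
  haveI := Fintype.ofFinite (RQ n (g n))
  have hc : (Nat.card {x : RQ n (g n) // (x.diam : ℝ) ≤ M * Real.log n} : ℝ)
      + (Nat.card {x : RQ n (g n) // M * Real.log n < (x.diam : ℝ)} : ℝ)
      = (Nat.card (RQ n (g n)) : ℝ) := by
    have h3 := Fintype.card_subtype_compl (fun x : RQ n (g n) => M * Real.log n < (x.diam : ℝ))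
    have h4 : Nat.card {x : RQ n (g n) // (x.diam : ℝ) ≤ M * Real.log n}
        = Fintype.card {x : RQ n (g n) // ¬ M * Real.log n < (x.diam : ℝ)} := by
      rw [Nat.card_eq_fintype_card]
      exact Fintype.card_congr (Equiv.subtypeEquivRight fun x => not_lt.symm)
    have h5 := Fintype.card_subtype_le (fun x : RQ n (g n) => M * Real.log n < (x.diam : ℝ))
    rw [h4, Nat.card_eq_fintype_card, Nat.card_eq_fintype_card]
    have h6 : Fintype.card {x : RQ n (g n) // ¬ M * Real.log n < (x.diam : ℝ)}
        + Fintype.card {x : RQ n (g n) // M * Real.log n < (x.diam : ℝ)}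
        = Fintype.card (RQ n (g n)) := by omega
    exact_mod_cast h6
  have hne : (Nat.card (RQ n (g n)) : ℝ) ≠ 0 := by exact_mod_cast hn.ne'
  rw [eq_div_iff hne, sub_mul, div_mul_cancel₀ _ hne, one_mul]
  linarith

end Pool.Agent.Results.MP_a7ce40_pr.LogDiameter
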